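import Pool.Agent.K3h45.IB.LimA

/-!
# Project IB of helper5, brick LIM, by helper45
-/

set_option autoImplicit false

open MeasureTheory Filter Topology

namespace Pool.Agent.K3h45.IB

open Pool.Agent.K3h5.IB

/-- the shift preserves the law -/
theorem sh_mp {d : ℕ} {p : ℕ → D d → ℝ} {q : D d → ℝ} (h : IsProbabilityMeasure (nu p q)) (k : ℕ) :
    MeasurePreserving (sh k) (PP p q) (PP p q) := by
  refine ⟨measurable_pi_lambda _ fun i => measurable_pi_apply (i + k), ?_⟩
  exact Measure.map_infinitePi_infinitePi_of_inj (P := fun _ : ℕ => nu p q)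
    (f := fun i : ℕ => i + k) (add_left_injective k)

/-- the first limit -/
theorem lim_one {δ : ℕ → ℕ} {ρ : ℝ} (hρ : 0 < ρ)
    (h : Tendsto (fun m : ℕ => (m : ℝ) / (δ m : ℝ)) atTop (𝓝 ρ)) :
    Tendsto (fun m : ℕ => (δ m : ℝ) / (δ (m + 1) : ℝ)) atTop (𝓝 1) := by
  have h1 : Tendsto (fun m : ℕ => ((m : ℝ) / (δ m : ℝ))⁻¹ * ((m : ℝ) / ((m : ℝ) + 1)) *
      (((m + 1 : ℕ) : ℝ) / (δ (m + 1) : ℝ))) atTop (𝓝 (ρ⁻¹ * 1 * ρ)) :=
    ((h.inv₀ hρ.ne').mul (tendsto_natCast_div_add_atTop (1 : ℝ))).mul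
      (h.comp (tendsto_add_atTop_nat 1))
  have h2 : ρ⁻¹ * 1 * ρ = 1 := by field_simp
  rw [h2] at h1
  refine h1.congr' ?_
  filter_upwards [eventually_gt_atTop 0] with m hm
  have hm' : (m : ℝ) ≠ 0 := by positivity
  have hm1 : (m : ℝ) + 1 ≠ 0 := by positivity
  push_cast
  rw [inv_div]
  field_simp

/-- **Brick LIM.** -/
theorem t_LIM : S_PROB → S_POS → S_BC → S_GOODAS → S_MEAS2 → S_CUTG → S_CNT → S_HIT → S_FIN →
    S_LIM := by
  classical
  intro hPR hPOS hBC hGA hM2 hCG hCNT hHIT hFIN d p q hpq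
  obtain ⟨-, hnu, hprob, -, -, -, -⟩ := hPR d p q hpq
  obtain ⟨r, hr, hbc⟩ := hBC d p q hpq
  set δ := drift (p 0) with hδ
  set μ := PP p q with hμ
  set G₀ : Set (ℕ → S d) := {x | Cut δ x 0} with hG₀
  obtain ⟨hmc, -, -, hmLK⟩ := hM2 d δ
  have hG₀m : MeasurableSet G₀ := hmc 0
  have hpos : 0 < μ.real G₀ := hPOS d p q hpq
  have hgood : ∀ᵐ x ∂μ, Good δ x := hGA d p q hpq
  have hgm : ∀ N, Measurable (gg δ N : (ℕ → S d) → ℝ) := by
    intro N
    unfold gg
    exact (measurable_from_top.comp (hmLK N)).min measurable_const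
  have hhm : Measurable (hh δ : (ℕ → S d) → ENNReal) := by
    unfold hh
    exact Measurable.iSup fun K => measurable_from_top.comp (hmLK K)
  have hgi : ∀ N, IntegrableOn (gg δ N) G₀ μ := by
    intro N
    refine Integrable.of_bound (C := N) (hgm N).aestronglyMeasurable ?_
    refine Filter.Eventually.of_forall fun x => ?_
    rw [Real.norm_eq_abs, abs_of_nonneg (gg_nonneg δ N x)]
    exact min_le_right _ _
  set Λ : ENNReal := ENNReal.ofReal r * ∫⁻ x in G₀, hh δ x ∂μ with hΛ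
  -- the averages of the bounded functions
  have hL : ∀ N, ENNReal.ofReal (r * ∫ x in G₀, gg δ N x ∂μ) =
      ENNReal.ofReal r * ∫⁻ x in G₀, ENNReal.ofReal (gg δ N x) ∂μ := by
    intro N
    rw [ENNReal.ofReal_mul hr.le, ofReal_integral_eq_lintegral_ofReal (hgi N)
      (Filter.Eventually.of_forall fun x => gg_nonneg δ N x)]
  have hgoodG : ∀ᵐ x ∂(μ.restrict G₀), Good δ x ∧ Cut δ x 0 := by
    rw [ae_restrict_iff' hG₀m]
    filter_upwards [hgood] with x hx h0
    exact ⟨hx, h0⟩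
  have hsup : Λ = ⨆ N, ENNReal.ofReal (r * ∫ x in G₀, gg δ N x ∂μ) := by
    have h1 : ∫⁻ x in G₀, hh δ x ∂μ = ∫⁻ x in G₀, ⨆ N, ENNReal.ofReal (gg δ N x) ∂μ := by
      refine lintegral_congr_ae ?_
      filter_upwards [hgoodG] with x hx
      exact (iSup_gg hHIT hx.1 hx.2).symm
    rw [hΛ, h1, lintegral_iSup_ae (fun N => (hgm N).ennreal_ofReal) ?_, ENNReal.mul_iSup]
    · exact iSup_congr fun N => (hL N).symm
    · intro N
      filter_upwards [hgoodG] with x hx
      exact ENNReal.ofReal_le_ofReal (gg_mono hHIT hx.1 hx.2 N)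
  have hΛ0 : Λ ≠ 0 := by
    have h1 : μ G₀ ≤ ∫⁻ x in G₀, hh δ x ∂μ := by
      have h2 : ∫⁻ _ in G₀, (1 : ENNReal) ∂μ = μ G₀ := by
        rw [lintegral_one, Measure.restrict_apply_univ]
      rw [← h2]
      refine lintegral_mono_ae ?_
      filter_upwards [hgoodG] with x hx
      obtain ⟨-, -, -, -, -, h6⟩ := hHIT d δ x hx.1
      refine le_trans ?_ (le_iSup (fun K => (LK δ x K : ENNReal)) 2)
      exact_mod_cast h6 hx.2
    have h3 : μ G₀ ≠ 0 := by
      intro h
      rw [Measure.real, h] at hpos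
      simp at hpos
    rw [hΛ]
    refine mul_ne_zero ?_ fun h => h3 (le_antisymm (h ▸ h1) bot_le)
    rw [Ne, ENNReal.ofReal_eq_zero, not_le]
    exact hr
  refine ⟨Λ, hΛ0, ?_⟩
  -- the ergodic theorem for all the functions
  have hbN : ∀ᵐ x ∂μ, ∀ N : ℕ, Tendsto (fun n : ℕ =>
      (∑ k ∈ Finset.range n, if Cut δ x k then gg δ N (sh k x) else 0) / (n : ℝ)) atTop
      (𝓝 (r * ∫ x in G₀, gg δ N x ∂μ)) :=
    ae_all_iff.mpr fun N => hbc (gg δ N) (hgm N) (gg_nonneg δ N) (hgi N)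
  have hb1 : ∀ᵐ x ∂μ, Tendsto (fun n : ℕ =>
      (∑ k ∈ Finset.range n, if Cut δ x k then (fun _ => (1 : ℝ)) (sh k x) else 0) / (n : ℝ)) atTop
      (𝓝 (r * ∫ _ in G₀, (1 : ℝ) ∂μ)) :=
    hbc (fun _ => 1) measurable_const (fun _ => zero_le_one) (integrable_const _)
  have hfinal : ∀ᵐ x ∂μ, (∫⁻ x in G₀, hh δ x ∂μ ≠ ⊤) →
      (∀ k, Cut δ x k → hh δ (sh k x) ≠ ⊤) ∧ Tendsto (fun n : ℕ =>
      (∑ k ∈ Finset.range n, if Cut δ x k then (hh δ (sh k x)).toReal else 0) / (n : ℝ)) atTop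
      (𝓝 (r * ∫ x in G₀, (hh δ x).toReal ∂μ)) := by
    by_cases hfin : ∫⁻ x in G₀, hh δ x ∂μ = ⊤
    · exact Filter.Eventually.of_forall fun x h => absurd hfin h
    · have h1 : ∀ᵐ x ∂(μ.restrict G₀), hh δ x < ⊤ := ae_lt_top hhm hfin
      have h2 : IntegrableOn (fun x => (hh δ x).toReal) G₀ μ :=
        integrable_toReal_of_lintegral_ne_top hhm.aemeasurable hfin
      have h3 := hbc (fun x => (hh δ x).toReal) hhm.ennreal_toReal
        (fun x => ENNReal.toReal_nonneg) h2
      have h4 : ∀ᵐ x ∂μ, x ∈ G₀ → hh δ x < ⊤ := (ae_restrict_iff' hG₀m).mp h1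
      have h5 : ∀ᵐ x ∂μ, ∀ k, (sh k x ∈ G₀ → hh δ (sh k x) < ⊤) :=
        ae_all_iff.mpr fun k => (sh_mp hnu k).quasiMeasurePreserving.ae h4
      filter_upwards [h3, h5, hgood] with x hx3 hx5 hx _
      refine ⟨fun k hk => (hx5 k ?_).ne, hx3⟩
      obtain ⟨-, -, hc, -, -, -, -⟩ := hCG d δ x hx
      obtain ⟨-, -, h6, -, -, -⟩ := hc k hk
      exact (h6 0).mpr hk
  filter_upwards [hgood, hbN, hb1, hfinal] with x hx hxN hx1 hxf
  obtain ⟨-, -, -, hmono, hcut, -, -⟩ := hCG d δ x hx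
  have hct : Tendsto (ct δ x) atTop atTop := hmono.tendsto_atTop
  have hctpos : ∀ᶠ m : ℕ in atTop, (0 : ℝ) < ct δ x m := by
    filter_upwards [hct.eventually_gt_atTop 0] with m hm
    exact_mod_cast hm
  have hctR : Tendsto (fun m => (ct δ x m : ℝ)) atTop atTop := tendsto_natCast_atTop_atTop.comp hct
  constructor
  · -- the first limit
    have h1 := hx1.comp hct
    have h2 : Tendsto (fun m : ℕ => (m : ℝ) / (ct δ x m : ℝ)) atTop
        (𝓝 (r * ∫ _ in G₀, (1 : ℝ) ∂μ)) := by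
      refine h1.congr fun m => ?_
      have h3 := sum_cut hCG hx (fun _ => (1 : ℝ)) m
      simp only [Function.comp_apply]
      rw [h3]
      simp
    refine lim_one ?_ h2
    rw [setIntegral_const, smul_eq_mul, mul_one]
    exact mul_pos hr hpos
  · -- the second limit
    have hu : (fun m : ℕ => ((hit δ x m : ENNReal) / (ct δ x m : ENNReal))) =ᶠ[atTop]
        fun m => ENNReal.ofReal ((hit δ x m : ℝ) / (ct δ x m : ℝ)) := by
      filter_upwards [hctpos] with m hm
      rw [ENNReal.ofReal_div_of_pos hm, ENNReal.ofReal_natCast, ENNReal.ofReal_natCast]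
    rw [tendsto_congr' hu]
    refine tendsto_of_le_liminf_of_limsup_le ?_ ?_
    · rw [hsup]
      refine iSup_le fun N => ?_
      have h1 : Tendsto (fun m : ℕ => ENNReal.ofReal
          ((∑ j ∈ Finset.range m, gg δ N (sh (ct δ x j) x)) / (ct δ x m : ℝ) -
            (N * N : ℝ) / (ct δ x m : ℝ))) atTop
          (𝓝 (ENNReal.ofReal (r * ∫ x in G₀, gg δ N x ∂μ))) := by
        have h2 := (hxN N).comp hct
        have h3 : Tendsto (fun m : ℕ => (N * N : ℝ) / (ct δ x m : ℝ)) atTop (𝓝 0) :=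
          hctR.const_div_atTop _
        have h4 := h2.sub h3
        rw [sub_zero] at h4
        refine (ENNReal.tendsto_ofReal h4).congr fun m => ?_
        simp only [Function.comp_apply]
        rw [sum_cut hCG hx]
      rw [← h1.liminf_eq]
      refine liminf_le_liminf ?_
      filter_upwards [hctpos] with m hm
      refine ENNReal.ofReal_le_ofReal ?_
      rw [← sub_div]
      refine div_le_div_of_nonneg_right ?_ hm.le
      have := lower hCG hCNT hHIT hx N m
      linarith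
    · by_cases hfin : ∫⁻ x in G₀, hh δ x ∂μ = ⊤
      · have h1 : Λ = ⊤ := by
          rw [hΛ, hfin, ENNReal.mul_top]
          rw [Ne, ENNReal.ofReal_eq_zero, not_le]
          exact hr
        rw [h1]
        exact le_top
      · obtain ⟨h1, h2⟩ := hxf hfin
        obtain ⟨C', hC'⟩ := upper hCNT hFIN hx fun j => h1 _ (hcut j)
        have h3 : Tendsto (fun m : ℕ => ENNReal.ofReal (C' / (ct δ x m : ℝ) +
            (∑ j ∈ Finset.range m, (hh δ (sh (ct δ x j) x)).toReal) / (ct δ x m : ℝ))) atTop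
            (𝓝 Λ) := by
          have h4 := h2.comp hct
          have h5 : Tendsto (fun m : ℕ => C' / (ct δ x m : ℝ)) atTop (𝓝 0) :=
            hctR.const_div_atTop _
          have h6 := h5.add h4
          rw [zero_add] at h6
          have h7 : Λ = ENNReal.ofReal (r * ∫ x in G₀, (hh δ x).toReal ∂μ) := by
            rw [hΛ, ENNReal.ofReal_mul hr.le]
            congr 1
            rw [integral_toReal hhm.aemeasurable (ae_lt_top hhm hfin), ENNReal.ofReal_toReal hfin]
          rw [h7]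
          refine (ENNReal.tendsto_ofReal h6).congr fun m => ?_
          simp only [Function.comp_apply]
          rw [sum_cut hCG hx (fun y => (hh δ y).toReal)]
        rw [← h3.limsup_eq]
        refine limsup_le_limsup ?_
        filter_upwards [hctpos] with m hm
        refine ENNReal.ofReal_le_ofReal ?_
        rw [← add_div]
        exact div_le_div_of_nonneg_right (hC' m) hm.le

end Pool.Agent.K3h45.IB
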