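import Pool.Agent.K3h5.IB.Stm

/-!
# Project IB of helper5, brick LIM, by helper45: deterministic part
-/

set_option autoImplicit false

open MeasureTheory Filter Topology

namespace Pool.Agent.K3h45.IB

open Pool.Agent.K3h5.IB

open Classical in
theorem sum_cut (hCG : S_CUTG) {d : ℕ} {δ : Fin d → ℝ} {x : ℕ → S d} (hx : Good δ x)
    (g : (ℕ → S d) → ℝ) (m : ℕ) :
    ∑ k ∈ Finset.range (ct δ x m), (if Cut δ x k then g (sh k x) else 0) =
      ∑ j ∈ Finset.range m, g (sh (ct δ x j) x) := by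
  obtain ⟨-, -, -, hmono, hcut, hex, -⟩ := hCG d δ x hx
  rw [← Finset.sum_filter]
  have h1 : (Finset.range (ct δ x m)).filter (fun k => Cut δ x k) =
      (Finset.range m).image (ct δ x) := by
    ext k
    simp only [Finset.mem_filter, Finset.mem_range, Finset.mem_image]
    constructor
    · rintro ⟨h2, h3⟩
      obtain ⟨j, rfl⟩ := hex k h3
      exact ⟨j, hmono.lt_iff_lt.mp h2, rfl⟩
    · rintro ⟨j, hj, rfl⟩
      exact ⟨hmono hj, hcut j⟩
  rw [h1, Finset.sum_image (fun a _ b _ h => hmono.injective h)]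

/-- the shifted inputs are good and have the cut time `0` -/
theorem shift_good (hCG : S_CUTG) {d : ℕ} {δ : Fin d → ℝ} {x : ℕ → S d} (hx : Good δ x) (j : ℕ) :
    Good δ (sh (ct δ x j) x) ∧ Cut δ (sh (ct δ x j) x) 0 := by
  obtain ⟨-, -, hc, -, hcut, -, -⟩ := hCG d δ x hx
  obtain ⟨-, -, h3, h4, -, -⟩ := hc _ (hcut j)
  exact ⟨h4, (h3 0).mpr (hcut j)⟩

theorem LK_mono (hH : S_HIT) {d : ℕ} {δ : Fin d → ℝ} {x : ℕ → S d} (hx : Good δ x)
    (h0 : Cut δ x 0) : Monotone (LK δ x) := by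
  obtain ⟨-, -, -, -, h5, -⟩ := hH d δ x hx
  exact monotone_nat_of_le_succ fun K => h5 K h0

/-- the bounded functions -/
noncomputable def gg {d : ℕ} (δ : Fin d → ℝ) (N : ℕ) (x : ℕ → S d) : ℝ := min (LK δ x N : ℝ) N

theorem few (N m : ℕ) : ∑ j ∈ Finset.range m, (if m - j < N then (N : ℝ) else 0) ≤ N * N := by
  rw [← Finset.sum_filter, Finset.sum_const, nsmul_eq_mul]
  have h1 : ((Finset.range m).filter fun j => m - j < N).card ≤ (Finset.range N).card := by
    refine Finset.card_le_card_of_injOn (fun j => m - j) ?_ ?_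
    · intro j hj
      exact Finset.mem_coe.mpr (Finset.mem_range.mpr (Finset.mem_filter.mp hj).2)
    · intro a ha b hb hab
      have h2 := Finset.mem_range.mp (Finset.mem_filter.mp ha).1
      have h3 := Finset.mem_range.mp (Finset.mem_filter.mp hb).1
      simp only at hab
      omega
  rw [Finset.card_range] at h1
  have h2 : (((Finset.range m).filter fun j => m - j < N).card : ℝ) ≤ N := by exact_mod_cast h1
  exact mul_le_mul_of_nonneg_right h2 (Nat.cast_nonneg _)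

theorem lower (hCG : S_CUTG) (hC : S_CNT) (hH : S_HIT) {d : ℕ} {δ : Fin d → ℝ} {x : ℕ → S d}
    (hx : Good δ x) (N m : ℕ) :
    ∑ j ∈ Finset.range m, gg δ N (sh (ct δ x j) x) ≤ (hit δ x m : ℝ) + N * N := by
  have h1 : (∑ j ∈ Finset.range m, (LK δ (sh (ct δ x j) x) (m - j) : ℝ)) ≤ hit δ x m := by
    have h2 := hC d δ x hx m
    have h3 : ∑ j ∈ Finset.range m, LK δ (sh (ct δ x j) x) (m - j) ≤ hit δ x m := by omega
    exact_mod_cast h3
  have h4 : ∀ j ∈ Finset.range m, gg δ N (sh (ct δ x j) x) ≤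
      (LK δ (sh (ct δ x j) x) (m - j) : ℝ) + if m - j < N then (N : ℝ) else 0 := by
    intro j _
    unfold gg
    by_cases h : m - j < N
    · rw [if_pos h]
      have h5 : (0 : ℝ) ≤ (LK δ (sh (ct δ x j) x) (m - j) : ℝ) := Nat.cast_nonneg _
      have h6 := min_le_right (LK δ (sh (ct δ x j) x) N : ℝ) (N : ℝ)
      linarith
    · rw [if_neg h, add_zero]
      refine (min_le_left _ _).trans ?_
      obtain ⟨h7, h8⟩ := shift_good hCG hx j
      exact_mod_cast LK_mono hH h7 h8 (by omega : N ≤ m - j)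
  have h9 := Finset.sum_le_sum h4
  rw [Finset.sum_add_distrib] at h9
  have h10 := few N m
  linarith

/-- the supremum -/
noncomputable def hh {d : ℕ} (δ : Fin d → ℝ) (x : ℕ → S d) : ENNReal := ⨆ K, (LK δ x K : ENNReal)

theorem LK_le_hh {d : ℕ} {δ : Fin d → ℝ} {x : ℕ → S d} (h : hh δ x ≠ ⊤) (K : ℕ) :
    (LK δ x K : ℝ) ≤ (hh δ x).toReal := by
  have h1 : (LK δ x K : ENNReal) ≤ hh δ x := le_iSup (fun K => (LK δ x K : ENNReal)) K
  have h2 := ENNReal.toReal_mono h h1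
  rwa [ENNReal.toReal_natCast] at h2

theorem upper (hC : S_CNT) (hF : S_FIN) {d : ℕ} {δ : Fin d → ℝ}
    {x : ℕ → S d} (hx : Good δ x) (hfin : ∀ j, hh δ (sh (ct δ x j) x) ≠ ⊤) :
    ∃ C' : ℝ, ∀ m, (hit δ x m : ℝ) ≤ C' +
      ∑ j ∈ Finset.range m, (hh δ (sh (ct δ x j) x)).toReal := by
  obtain ⟨C, hC1⟩ := exists_nat_ge (hh δ (sh (ct δ x 0) x)).toReal
  obtain ⟨C', hC'⟩ := hF d δ x hx C fun K => by
    have h1 := (LK_le_hh (hfin 0) K).trans hC1
    exact_mod_cast h1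
  refine ⟨C', fun m => ?_⟩
  have h2 := hC d δ x hx m
  have h3 := hC' (hit δ x m)
  have h4 : (∑ j ∈ Finset.range m, (LK δ (sh (ct δ x j) x) (m - j) : ℝ)) ≤
      ∑ j ∈ Finset.range m, (hh δ (sh (ct δ x j) x)).toReal :=
    Finset.sum_le_sum fun j _ => LK_le_hh (hfin j) _
  have h5 : (hit δ x m : ℝ) = (visits (YY x) {v | ∃ k ≤ ct δ x 0, path0 x k = v} (hit δ x m) : ℝ) +
      ∑ j ∈ Finset.range m, (LK δ (sh (ct δ x j) x) (m - j) : ℝ) := by
    exact_mod_cast h2
  have h6 : (visits (YY x) {v | ∃ k ≤ ct δ x 0, path0 x k = v} (hit δ x m) : ℝ) ≤ C' := by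
    exact_mod_cast h3
  linarith

/-- the supremum of the bounded functions -/
theorem iSup_gg (hH : S_HIT) {d : ℕ} {δ : Fin d → ℝ} {x : ℕ → S d} (hx : Good δ x)
    (h0 : Cut δ x 0) : ⨆ N, ENNReal.ofReal (gg δ N x) = hh δ x := by
  have hm := LK_mono hH hx h0
  apply le_antisymm
  · refine iSup_le fun N => ?_
    refine le_trans ?_ (le_iSup (fun K => (LK δ x K : ENNReal)) N)
    rw [← ENNReal.ofReal_natCast]
    exact ENNReal.ofReal_le_ofReal (min_le_left _ _)
  · refine iSup_le fun K => ?_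
    refine le_trans ?_ (le_iSup (fun N => ENNReal.ofReal (gg δ N x)) (max K (LK δ x K)))
    rw [← ENNReal.ofReal_natCast]
    refine ENNReal.ofReal_le_ofReal ?_
    unfold gg
    refine le_min ?_ ?_
    · exact_mod_cast hm (le_max_left K (LK δ x K))
    · exact_mod_cast le_max_right K (LK δ x K)

theorem gg_mono (hH : S_HIT) {d : ℕ} {δ : Fin d → ℝ} {x : ℕ → S d} (hx : Good δ x)
    (h0 : Cut δ x 0) (N : ℕ) : gg δ N x ≤ gg δ (N + 1) x := by
  unfold gg
  refine min_le_min ?_ ?_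
  · exact_mod_cast LK_mono hH hx h0 (Nat.le_succ N)
  · push_cast
    linarith

theorem gg_nonneg {d : ℕ} (δ : Fin d → ℝ) (N : ℕ) (x : ℕ → S d) : 0 ≤ gg δ N x :=
  le_min (Nat.cast_nonneg _) (Nat.cast_nonneg _)

end Pool.Agent.K3h45.IB
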